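import Pool.Agent.N277.NF.CH0
import Pool.Agent.Y142.Split

/-!
# Project NF (helper198), part CH (helper277): primes with given norm modulo `M`
-/

set_option autoImplicit false

namespace Pool.Agent.N277.NF

open NumberField Pool.Agent.N198.NF

/-- **NF/CH** -/
theorem primes_of_acts {k : Type} [Field k] [NumberField k] {M t : ℕ} (hM : 0 < M)
    (h : Acts k M t) (N : ℕ) :
    ∃ (K : Type) (_ : Field K) (_ : Fintype K) (f : 𝓞 k →+* K), Function.Surjective f ∧
      N < ringChar K ∧ ((Fintype.card K : ℕ) : ZMod M) = ((t : ℕ) : ZMod M) :=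
  primes_of_acts0 Pool.Agent.Y142.chebK hM h N

end Pool.Agent.N277.NF
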