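import Pool.Agent.N198.NF.Def2
import Pool.Agent.W401.Cheb.AbsDefs

/-!
# Project NF (helper198), part CH (helper277): primes with given norm modulo `M`
-/

set_option autoImplicit false
set_option linter.style.haveILetI false

namespace Pool.Agent.N277.NF

open NumberField Filter Topology IsDedekindDomain Pool.Agent.W401.Cheb Pool.Agent.N198.NF

section

variable {k : Type} [Field k] [NumberField k]

omit [NumberField k] in
theorem coe_smul (σ : GK k) (x : 𝓞 (AlgebraicClosure k)) :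
    ((σ • x : 𝓞 (AlgebraicClosure k)) : AlgebraicClosure k) = σ (x : AlgebraicClosure k) := rfl

/-- the stabiliser of a root of unity -/
def stab (ζ : AlgebraicClosure k) : Subgroup (GK k) where
  carrier := {σ | σ ζ = ζ}
  mul_mem' := by
    intro a b ha hb
    show a (b ζ) = ζ
    rw [show b ζ = ζ from hb, show a ζ = ζ from ha]
  one_mem' := rfl
  inv_mem' := by
    intro a ha
    show a⁻¹ ζ = ζ
    have h : a ζ = ζ := ha
    calc a⁻¹ ζ = a⁻¹ (a ζ) := by rw [h]
      _ = ζ := by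
        rw [← AlgEquiv.mul_apply, inv_mul_cancel]
        rfl

omit [NumberField k] in
theorem mem_stab {ζ : AlgebraicClosure k} {σ : GK k} : σ ∈ stab ζ ↔ σ ζ = ζ := Iff.rfl

omit [NumberField k] in
theorem stab_open (ζ : AlgebraicClosure k) : IsOpen (stab ζ : Set (GK k)) := by
  have hfd : FiniteDimensional k (IntermediateField.adjoin k {ζ}) :=
    IntermediateField.adjoin.finiteDimensional (Algebra.IsIntegral.isIntegral ζ)
  refine Subgroup.isOpen_mono (H₁ := (IntermediateField.adjoin k {ζ}).fixingSubgroup) ?_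
    (IntermediateField.fixingSubgroup_isOpen _)
  intro σ hσ
  rw [mem_stab]
  exact (IntermediateField.mem_fixingSubgroup_iff _ _).1 hσ ζ
    (IntermediateField.mem_adjoin_simple_self k ζ)

omit [NumberField k] in
/-- the image of a primitive root is a power -/
theorem apply_pow {M : ℕ} (hM : 0 < M) {ζ : AlgebraicClosure k} (hζ : IsPrimitiveRoot ζ M)
    (σ : GK k) : ∃ j : ℕ, σ ζ = ζ ^ j := by
  have h1 : (σ ζ) ^ M = 1 := by rw [← map_pow, hζ.pow_eq_one, map_one]
  haveI : NeZero M := ⟨hM.ne'⟩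
  obtain ⟨j, -, hj⟩ := hζ.eq_pow_of_pow_eq_one h1
  exact ⟨j, hj.symm⟩

/-- infinitely many primes -/
theorem exists_prime (hch : ChebK) {M t : ℕ} (hM : 0 < M) {ζ : AlgebraicClosure k}
    (hζ : IsPrimitiveRoot ζ M) (h : ∃ σ : GK k, σ ζ = ζ ^ t) (B : ℕ) (hB : B ≠ 0) :
    ∃ (v : HeightOneSpectrum (𝓞 k)) (σ : GK k), σ ζ = ζ ^ t ∧ IsFrob v σ ∧
      (B : 𝓞 k) ∉ v.asIdeal := by
  classical
  by_contra hcon
  push Not at hcon
  set U : Subgroup (GK k) := stab ζ with hU
  have hN : U.Normal := by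
    constructor
    intro σ hσ τ
    rw [hU, mem_stab] at hσ ⊢
    obtain ⟨j, hj⟩ := apply_pow hM hζ τ⁻¹
    rw [AlgEquiv.mul_apply, AlgEquiv.mul_apply, hj, map_pow, hσ, ← hj, ← AlgEquiv.mul_apply,
      mul_inv_cancel]
    rfl
  set C : Set (GK k) := {σ | σ ζ = ζ ^ t} with hC
  have hC1 : ∀ σ ∈ C, ∀ τ : GK k, τ * σ * τ⁻¹ ∈ C := by
    intro σ hσ τ
    have hσ' : σ ζ = ζ ^ t := hσ
    show (τ * σ * τ⁻¹) ζ = ζ ^ t
    obtain ⟨j, hj⟩ := apply_pow hM hζ τ⁻¹
    rw [AlgEquiv.mul_apply, AlgEquiv.mul_apply, hj, map_pow, hσ', ← pow_mul, mul_comm t j, pow_mul,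
      ← hj, map_pow, ← AlgEquiv.mul_apply, mul_inv_cancel]
    rfl
  have hC2 : ∀ σ ∈ C, ∀ u ∈ U, σ * u ∈ C := by
    intro σ hσ u hu
    have hσ' : σ ζ = ζ ^ t := hσ
    have hu' : u ζ = ζ := hu
    show (σ * u) ζ = ζ ^ t
    rw [AlgEquiv.mul_apply, hu', hσ']
  have hopen : IsOpen (U : Set (GK k)) := stab_open ζ
  have h1 := hch k U hopen C hC1 hC2
  have hfin : Finite (GK k ⧸ U) := Subgroup.quotient_finite_of_isOpen U hopen
  have hS : {v : HeightOneSpectrum (𝓞 k) | ∃ σ ∈ C, IsFrob v σ}.Finite := by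
    have hB0 : Ideal.span {(B : 𝓞 k)} ≠ ⊥ := by
      rw [Ne, Ideal.span_singleton_eq_bot]
      exact_mod_cast hB
    refine (Ideal.finite_factors hB0).subset ?_
    rintro v ⟨σ, hσ, hv⟩
    have := hcon v σ hσ hv
    show v.asIdeal ∣ Ideal.span {(B : 𝓞 k)}
    rw [Ideal.dvd_span_singleton]
    exact this
  have hfinS : Finite {v : HeightOneSpectrum (𝓞 k) // ∃ σ ∈ C, IsFrob v σ} := hS
  have h2 : Tendsto (dens fun v : HeightOneSpectrum (𝓞 k) => ∃ σ ∈ C, IsFrob v σ) atTop (𝓝 0) := by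
    have h3 : Tendsto (fun n : ℕ => (Nat.card {v : HeightOneSpectrum (𝓞 k) // ∃ σ ∈ C, IsFrob v σ} : ℝ) /
        (Nat.primeCounting n : ℝ)) atTop (𝓝 0) :=
      tendsto_const_nhds.div_atTop (tendsto_natCast_atTop_atTop.comp Nat.tendsto_primeCounting)
    refine squeeze_zero (fun n => ?_) (fun n => ?_) h3
    · unfold dens
      positivity
    · unfold dens
      have h4 : Nat.card {v : HeightOneSpectrum (𝓞 k) // Ideal.absNorm v.asIdeal ≤ n ∧
          ∃ σ ∈ C, IsFrob v σ} ≤ Nat.card {v : HeightOneSpectrum (𝓞 k) // ∃ σ ∈ C, IsFrob v σ} := by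
        refine Nat.card_le_card_of_injective (fun v : {v : HeightOneSpectrum (𝓞 k) //
          Ideal.absNorm v.asIdeal ≤ n ∧ ∃ σ ∈ C, IsFrob v σ} =>
          (⟨v.1, v.2.2⟩ : {v : HeightOneSpectrum (𝓞 k) // ∃ σ ∈ C, IsFrob v σ})) ?_
        intro v w hvw
        exact Subtype.ext (congrArg (fun x => x.1) hvw)
      exact div_le_div_of_nonneg_right (by exact_mod_cast h4) (Nat.cast_nonneg _)
  have h5 := tendsto_nhds_unique h1 h2
  have h6 : 0 < ((QuotientGroup.mk : GK k → GK k ⧸ U) '' C).ncard := by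
    rw [Set.ncard_pos (Set.toFinite _)]
    obtain ⟨σ, hσ⟩ := h
    exact ⟨_, σ, hσ, rfl⟩
  have h7 : 0 < Nat.card (GK k ⧸ U) := Nat.card_pos
  have h8 : (0 : ℝ) < (((QuotientGroup.mk : GK k → GK k ⧸ U) '' C).ncard : ℝ) /
      (Nat.card (GK k ⧸ U) : ℝ) := by
    have h6' : (0 : ℝ) < (((QuotientGroup.mk : GK k → GK k ⧸ U) '' C).ncard : ℝ) := by exact_mod_cast h6
    have h7' : (0 : ℝ) < (Nat.card (GK k ⧸ U) : ℝ) := by exact_mod_cast h7
    positivity
  rw [h5] at h8
  exact lt_irrefl _ h8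

/-- reduction of a primitive root of unity -/
theorem red {R F : Type} [CommRing R] [IsDomain R] [Field F] (φ : R →+* F) {M : ℕ} (hM : 0 < M)
    (hMF : (M : F) ≠ 0) {z : R} (hz : IsPrimitiveRoot z M) {a b : ℕ} (h : φ z ^ a = φ z ^ b) :
    (a : ZMod M) = (b : ZMod M) := by
  have hord : orderOf (φ z) = M := by
    have h1 : orderOf (φ z) ∣ M := by
      apply orderOf_dvd_of_pow_eq_one
      rw [← map_pow, hz.pow_eq_one, map_one]
    have hpos : 0 < orderOf (φ z) := Nat.pos_of_dvd_of_pos h1 hM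
    by_contra hne
    have hlt : orderOf (φ z) < M := lt_of_le_of_ne (Nat.le_of_dvd hM h1) hne
    obtain ⟨n, rfl⟩ : ∃ n, M = n + 1 := ⟨M - 1, by omega⟩
    have h2 := hz.prod_one_sub_pow_eq_order
    have h3 := congrArg φ h2
    rw [map_prod] at h3
    have h4 : ∏ x ∈ Finset.range n, φ (1 - z ^ (x + 1)) = 0 := by
      refine Finset.prod_eq_zero (i := orderOf (φ z) - 1) (Finset.mem_range.2 (by omega)) ?_
      rw [show orderOf (φ z) - 1 + 1 = orderOf (φ z) by omega, map_sub, map_one, map_pow,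
        pow_orderOf_eq_one, sub_self]
    rw [h4] at h3
    apply hMF
    rw [map_add, map_natCast, map_one] at h3
    push_cast
    exact h3.symm
  have hz0 : φ z ≠ 0 := by
    intro h0
    have h1 : φ z ^ M = 1 := by rw [← map_pow, hz.pow_eq_one, map_one]
    rw [h0, zero_pow hM.ne'] at h1
    exact zero_ne_one h1
  have key : ∀ {a b : ℕ}, a ≤ b → φ z ^ a = φ z ^ b → (a : ZMod M) = (b : ZMod M) := by
    intro a b hab hh
    obtain ⟨d, rfl⟩ := Nat.exists_eq_add_of_le hab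
    have h1 : φ z ^ d = 1 := by
      rw [pow_add] at hh
      have := mul_left_cancel₀ (pow_ne_zero a hz0) ((mul_one (φ z ^ a)).trans hh)
      exact this.symm
    have h2 := orderOf_dvd_of_pow_eq_one h1
    rw [hord] at h2
    have h3 : ((d : ℕ) : ZMod M) = 0 := (ZMod.natCast_eq_zero_iff _ _).2 h2
    push_cast
    rw [h3, add_zero]
  rcases le_total a b with hab | hab
  · exact key hab h
  · exact (key hab h.symm).symm

/-- **NF/CH** from Chebotarev's theorem -/
theorem primes_of_acts0 (hch : ChebK) {M t : ℕ} (hM : 0 < M) (h : Acts k M t) (N : ℕ) :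
    ∃ (K : Type) (_ : Field K) (_ : Fintype K) (f : 𝓞 k →+* K), Function.Surjective f ∧
      N < ringChar K ∧ ((Fintype.card K : ℕ) : ZMod M) = ((t : ℕ) : ZMod M) := by
  classical
  haveI : NeZero M := ⟨hM.ne'⟩
  haveI : NeZero (M : k) := ⟨by exact_mod_cast hM.ne'⟩
  obtain ⟨ζ, hζ⟩ := HasEnoughRootsOfUnity.exists_primitiveRoot (AlgebraicClosure k) M
  have hact : ∃ σ : GK k, σ ζ = ζ ^ t := by
    obtain ⟨σ, hσ⟩ := h
    exact ⟨σ, hσ ζ hζ.pow_eq_one⟩
  set B : ℕ := (max N M).factorial with hB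
  obtain ⟨v, σ, hσ, hF, hBv⟩ := exists_prime hch hM hζ hact B (Nat.factorial_ne_zero _)
  have hmax : v.asIdeal.IsMaximal := v.isMaximal
  letI fK : Field (𝓞 k ⧸ v.asIdeal) := Ideal.Quotient.field v.asIdeal
  haveI : Finite (𝓞 k ⧸ v.asIdeal) := Ideal.finiteQuotientOfFreeOfNeBot _ v.ne_bot
  letI ft : Fintype (𝓞 k ⧸ v.asIdeal) := Fintype.ofFinite _
  have hcard : Ideal.absNorm v.asIdeal = Fintype.card (𝓞 k ⧸ v.asIdeal) := by
    rw [Ideal.absNorm_apply, Submodule.cardQuot_apply]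
    exact Nat.card_eq_fintype_card
  refine ⟨𝓞 k ⧸ v.asIdeal, fK, ft, Ideal.Quotient.mk v.asIdeal, Ideal.Quotient.mk_surjective, ?_, ?_⟩
  · haveI : CharP (𝓞 k ⧸ v.asIdeal) (ringChar (𝓞 k ⧸ v.asIdeal)) := ringChar.charP _
    have hp : (ringChar (𝓞 k ⧸ v.asIdeal)).Prime := CharP.char_is_prime (𝓞 k ⧸ v.asIdeal) _
    by_contra hle
    push Not at hle
    apply hBv
    rw [← Ideal.Quotient.eq_zero_iff_mem, map_natCast, ringChar.spec, hB]
    exact (hp.dvd_factorial).2 (hle.trans (le_max_left _ _))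
  · rw [← hcard]
    obtain ⟨Q, hQ, hQv, hQσ⟩ := hF
    haveI := hQ
    letI : Field (𝓞 (AlgebraicClosure k) ⧸ Q) := Ideal.Quotient.field Q
    have hint : IsIntegral ℤ ζ := hζ.isIntegral hM
    set z : 𝓞 (AlgebraicClosure k) := ⟨ζ, hint⟩ with hz
    have hzc : (z : AlgebraicClosure k) = ζ := rfl
    have hzp : IsPrimitiveRoot z M :=
      IsPrimitiveRoot.of_map_of_injective (f := algebraMap (𝓞 (AlgebraicClosure k)) (AlgebraicClosure k))
        hζ RingOfIntegers.coe_injective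
    have hMQ : ((M : ℕ) : 𝓞 (AlgebraicClosure k) ⧸ Q) ≠ 0 := by
      intro h0
      rw [← map_natCast (Ideal.Quotient.mk Q), Ideal.Quotient.eq_zero_iff_mem] at h0
      have h1 : ((M : ℕ) : 𝓞 k) ∈ v.asIdeal := by
        rw [← hQv, Ideal.mem_comap, map_natCast]
        exact h0
      apply hBv
      obtain ⟨c, hc⟩ := Nat.dvd_factorial hM (le_max_right N M)
      rw [hB, hc]
      push_cast
      exact Ideal.mul_mem_right _ _ h1
    have h2 := hQσ z
    have h3 : σ • z = z ^ t := by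
      apply RingOfIntegers.ext
      rw [coe_smul]
      exact hσ
    rw [h3] at h2
    have h4 : Ideal.Quotient.mk Q z ^ (Ideal.absNorm v.asIdeal) = Ideal.Quotient.mk Q z ^ t := by
      rw [← map_pow, ← map_pow]
      exact (Ideal.Quotient.eq.2 h2).symm
    exact red (Ideal.Quotient.mk Q) hM hMQ hzp h4

end

end Pool.Agent.N277.NF
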